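import Mathlib
import Pool.Agent.Helper91.GU.StE

/-!
# Module E3 of project GU: the element `g` (determinant trick)
-/

set_option autoImplicit false

namespace Pool.Agent.Helper61.GU

universe u

open Polynomial
open Pool.Agent.Helper91.GU

/-- coefficient comparison: `ε₁ j` of degree `< k` congruent to a multiple of `1 - a X^k` -/
theorem pow_mem_of_mem {L : Type u} [CommRing L] (𝔞 : Ideal L) (α : ℕ → L) (k : ℕ) (hk : 1 ≤ k)
    (κ : L) (hκ : κ * k = 1) (j : L)
    (h : C κ * (∑ i ∈ Finset.range k, C (α i) * X ^ i) * C j ∈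
      Ideal.span {1 - C (α 0) * X ^ k} ⊔ 𝔞.map C) :
    ∃ p : ℕ, α 0 ^ p * j ∈ 𝔞 := by
  obtain ⟨y, hy, r, hr, hyr⟩ := Submodule.mem_sup.1 h
  obtain ⟨q, rfl⟩ := Ideal.mem_span_singleton'.1 hy
  rw [Ideal.mem_map_C_iff] at hr
  -- coefficients of the left side
  have hL : ∀ l, (C κ * (∑ i ∈ Finset.range k, C (α i) * X ^ i) * C j).coeff l
      = if l < k then κ * α l * j else 0 := by
    intro l
    rw [coeff_mul_C, coeff_C_mul, finsetSum_coeff]
    simp only [coeff_C_mul, coeff_X_pow]
    by_cases hl : l < k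
    · rw [Finset.sum_eq_single l]
      · simp [hl]
      · intro i _ hi
        rw [if_neg (fun h => hi h.symm), mul_zero]
      · intro h
        exact absurd (Finset.mem_range.2 hl) h
    · rw [Finset.sum_eq_zero]
      · simp [hl]
      · intro i hi
        rw [Finset.mem_range] at hi
        rw [if_neg (by omega), mul_zero]
  have hR : ∀ l, (q * (1 - C (α 0) * X ^ k)).coeff (l + k) = q.coeff (l + k) - α 0 * q.coeff l := by
    intro l
    have e : q * (1 - C (α 0) * X ^ k) = q - C (α 0) * (q * X ^ k) := by ring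
    rw [e, coeff_sub, coeff_C_mul, coeff_mul_X_pow]
  have hR0 : (q * (1 - C (α 0) * X ^ k)).coeff 0 = q.coeff 0 := by
    have e : q * (1 - C (α 0) * X ^ k) = q - C (α 0) * (q * X ^ k) := by ring
    rw [e, coeff_sub, coeff_C_mul, coeff_mul_X_pow', if_neg (by omega), mul_zero, sub_zero]
  have key : ∀ m : ℕ, q.coeff (m * k) - κ * α 0 ^ (m + 1) * j ∈ 𝔞 := by
    intro m
    induction m with
    | zero =>
      have h0 := congrArg (fun f => coeff f 0) hyr
      simp only [coeff_add] at h0
      rw [hR0, hL 0, if_pos (by omega)] at h0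
      have e : q.coeff (0 * k) - κ * α 0 ^ (0 + 1) * j = -r.coeff 0 := by
        rw [zero_mul, zero_add, pow_one]
        linear_combination h0
      rw [e]
      exact 𝔞.neg_mem (hr 0)
    | succ m ih =>
      have h0 := congrArg (fun f => coeff f (m * k + k)) hyr
      simp only [coeff_add] at h0
      rw [hR, hL, if_neg (by omega)] at h0
      have e : q.coeff ((m + 1) * k) - κ * α 0 ^ (m + 1 + 1) * j
          = α 0 * (q.coeff (m * k) - κ * α 0 ^ (m + 1) * j) - r.coeff (m * k + k) := by
        rw [Nat.succ_mul]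
        linear_combination h0
      rw [e]
      exact 𝔞.sub_mem (𝔞.mul_mem_left _ ih) (hr _)
  refine ⟨q.natDegree + 1 + 1, ?_⟩
  have h1 := key (q.natDegree + 1)
  have h2 : q.coeff ((q.natDegree + 1) * k) = 0 := by
    apply coeff_eq_zero_of_natDegree_lt
    nlinarith
  rw [h2, zero_sub] at h1
  have h3 := 𝔞.mul_mem_left (-(k : L)) h1
  have e : -(k : L) * -(κ * α 0 ^ (q.natDegree + 1 + 1) * j)
      = α 0 ^ (q.natDegree + 1 + 1) * j := by
    linear_combination (α 0 ^ (q.natDegree + 1 + 1) * j) * hκ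
  rw [e] at h3
  exact h3

/-- determinant trick -/
theorem det_trick {L : Type u} [CommRing L] (J B : Ideal L) (hJ : J.FG) (c : L)
    (h : ∀ j ∈ J, c * j ∈ J * J ⊔ B) :
    ∃ (n : ℕ) (g : L), g - c ^ n ∈ J ∧ ∀ j ∈ J, g * j ∈ B := by
  obtain ⟨n, w, hw⟩ := Submodule.fg_iff_exists_fin_generating_family.1 hJ
  have hwJ : ∀ i, w i ∈ J := fun i => by
    rw [← hw]; exact Submodule.subset_span (Set.mem_range_self i)
  have h1 : ∀ i, ∃ ν : Fin n → L, (∀ l, ν l ∈ J) ∧ c * w i - ∑ l, ν l * w l ∈ B := by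
    intro i
    obtain ⟨y, hy, b, hb, hyb⟩ := Submodule.mem_sup.1 (h (w i) (hwJ i))
    have hy' : y ∈ J • Submodule.span L (Set.range w) := by
      rw [hw]; exact hy
    rw [Submodule.mem_ideal_smul_span_iff_exists_sum] at hy'
    obtain ⟨a, ha, hsum⟩ := hy'
    refine ⟨fun l => a l, ha, ?_⟩
    have e : c * w i - ∑ l, a l * w l = b := by
      rw [← hyb, ← hsum, Finsupp.sum_fintype]
      · simp only [smul_eq_mul]
        ring
      · intro l; simp
    rw [e]; exact hb
  choose ν hν hνB using h1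
  let M : Matrix (Fin n) (Fin n) L := Matrix.of (fun i l => (if i = l then c else 0) - ν i l)
  refine ⟨n, M.det, ?_, ?_⟩
  · rw [← Ideal.Quotient.eq]
    have h2 : (Ideal.Quotient.mk J) M.det
        = ((Ideal.Quotient.mk J).mapMatrix M).det := RingHom.map_det _ _
    rw [h2]
    have h3 : (Ideal.Quotient.mk J).mapMatrix M
        = (Ideal.Quotient.mk J c) • (1 : Matrix (Fin n) (Fin n) (L ⧸ J)) := by
      ext i l
      simp only [RingHom.mapMatrix_apply, Matrix.map_apply, M, Matrix.of_apply, map_sub,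
        Matrix.smul_apply, Matrix.one_apply, smul_eq_mul, mul_ite, mul_one, mul_zero]
      rw [Ideal.Quotient.eq_zero_iff_mem.2 (hν i l), sub_zero]
      split_ifs <;> simp
    rw [h3, Matrix.det_smul, Matrix.det_one, mul_one, Fintype.card_fin, map_pow]
  · -- adjugate
    have h2 : ∀ i, M.det * w i ∈ B := by
      intro i
      have h3 : M.adjugate.mulVec (M.mulVec w) = M.det • w := by
        rw [Matrix.mulVec_mulVec, Matrix.adjugate_mul, Matrix.smul_mulVec, Matrix.one_mulVec]
      have h4 := congrFun h3 i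
      rw [Pi.smul_apply, smul_eq_mul] at h4
      rw [← h4]
      rw [Matrix.mulVec, dotProduct]
      apply Ideal.sum_mem
      intro l _
      apply B.mul_mem_left
      have h5 : M.mulVec w l = c * w l - ∑ m, ν l m * w m := by
        rw [Matrix.mulVec, dotProduct]
        simp only [M, Matrix.of_apply, sub_mul, Finset.sum_sub_distrib, ite_mul, zero_mul]
        simp
      rw [h5]
      exact hνB l
    intro j hj
    have hj' : j ∈ Submodule.span L (Set.range w) := by rw [hw]; exact hj
    induction hj' using Submodule.span_induction with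
    | mem x hx =>
      obtain ⟨i, rfl⟩ := hx
      exact h2 i
    | zero => rw [mul_zero]; exact B.zero_mem
    | add x y hx hy hx' hy' =>
      rw [hw] at hx hy
      rw [mul_add]
      exact B.add_mem (hx' hx) (hy' hy)
    | smul a x hx hx' =>
      rw [hw] at hx
      rw [smul_eq_mul, mul_left_comm]
      exact B.mul_mem_left _ (hx' hx)

theorem hE3 (hE2b : StE2b.{u}) : StE3.{u} := by
  intro L _ _ I k₀ a hYK k hk0 hk1 hunit s b N hbI hI
  obtain ⟨κ, hκ⟩ : ∃ κ : L, κ * k = 1 := by
    obtain ⟨v, hv⟩ := hunit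
    exact ⟨(v⁻¹ : Lˣ), by rw [← hv]; exact Units.inv_mul v⟩
  obtain ⟨hε1, hε2⟩ := hE2b L I k₀ a hYK k hk0 hk1 κ hκ
  set ε : L[X] := C κ * ∑ i ∈ Finset.range k, C (a (k + i)) * X ^ (k + i) with hε
  set γ : L[X] := 1 - C (a k) * X ^ k with hγ
  have hγI : γ ∈ I := hYK k hk0
  set J : Ideal L := I.comap C with hJ
  set B : Ideal L := Ideal.span (Set.range b) with hB
  have hBJ : B ≤ J := by
    rw [hB, Ideal.span_le]
    rintro _ ⟨i, rfl⟩
    exact hbI i
  set K : Ideal L[X] := Ideal.span (insert γ (Set.range fun j => C (b j) * X ^ N)) with hK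
  have hKle : K ≤ Ideal.span {γ} ⊔ B.map C := by
    rw [hK, Ideal.span_le]
    rintro x hx
    rcases Set.mem_insert_iff.1 hx with rfl | ⟨i, rfl⟩
    · exact Ideal.mem_sup_left (Ideal.mem_span_singleton_self _)
    · apply Ideal.mem_sup_right
      apply Ideal.mul_mem_right
      exact Ideal.mem_map_of_mem _ (Ideal.subset_span (Set.mem_range_self i))
  -- Nakayama
  obtain ⟨r, hr, hrI⟩ : ∃ r : L[X], r - 1 ∈ I ∧ ∀ x ∈ I, r * x ∈ K := by
    obtain ⟨r, hr1, hr2⟩ := Submodule.exists_sub_one_mem_and_smul_le_of_fg_of_le_sup (I := I)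
      (N := K) (N' := I) (P := I) (IsNoetherian.noetherian I) le_rfl (by
        rw [smul_eq_mul, ← pow_two]
        exact hI)
    refine ⟨r, hr1, ?_⟩
    intro x hx
    apply hr2
    exact Submodule.smul_mem_pointwise_smul _ _ _ hx
  set t : L[X] := 1 - r with ht
  have htI : t ∈ I := by
    have : t = -(r - 1) := by rw [ht]; ring
    rw [this]; exact I.neg_mem hr
  obtain ⟨l, hl⟩ := hε2 t htI
  set 𝔞 : Ideal L := J * J ⊔ B with h𝔞
  -- the main membership
  have hmain : ∀ j ∈ J, ∃ p : ℕ, a k ^ p * j ∈ 𝔞 := by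
    intro j hj
    have hjI : C j ∈ I := hj
    have h1 : ε * C j ∈ Ideal.span {γ} ⊔ 𝔞.map C := by
      have e1 : ε * C j = ε * (r * C j) + ((l * C j) * γ + (ε * t - l * γ) * C j) := by
        rw [ht]; ring
      rw [e1]
      apply Ideal.add_mem
      · apply Ideal.mul_mem_left
        have h2 := hKle (hrI (C j) hjI)
        have h3 : B.map (C : L →+* L[X]) ≤ 𝔞.map C := Ideal.map_mono le_sup_right
        have h4 : Ideal.span {γ} ⊔ B.map (C : L →+* L[X]) ≤ Ideal.span {γ} ⊔ 𝔞.map C :=
          sup_le_sup_left h3 _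
        exact h4 h2
      · apply Ideal.add_mem
        · apply Ideal.mem_sup_left
          apply Ideal.mul_mem_left
          exact Ideal.mem_span_singleton_self _
        · apply Ideal.mem_sup_right
          have h3 : (ε * t - l * γ) * C j ∈ J.map C * J.map C :=
            Ideal.mul_mem_mul hl (Ideal.mem_map_of_mem _ hj)
          rw [← Ideal.map_mul] at h3
          exact (Ideal.map_mono le_sup_left) h3
    set ε₁ : L[X] := C κ * ∑ i ∈ Finset.range k, C (a (k + i)) * X ^ i with hε₁
    have e2 : ε₁ = C (a k) * ε + ε₁ * γ := by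
      have e3 : ε = ε₁ * X ^ k := by
        rw [hε, hε₁, mul_assoc, Finset.sum_mul]
        congr 1
        apply Finset.sum_congr rfl
        intro i _
        rw [pow_add]; ring
      rw [e3, hγ]; ring
    have h2 : ε₁ * C j ∈ Ideal.span {γ} ⊔ 𝔞.map C := by
      have e4 : ε₁ * C j = C (a k) * (ε * C j) + (ε₁ * C j) * γ := by
        calc ε₁ * C j = (C (a k) * ε + ε₁ * γ) * C j := by rw [← e2]
          _ = _ := by ring
      rw [e4]
      apply Ideal.add_mem
      · exact Ideal.mul_mem_left _ _ h1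
      · apply Ideal.mem_sup_left
        exact Ideal.mul_mem_left _ _ (Ideal.mem_span_singleton_self _)
    have := pow_mem_of_mem 𝔞 (fun i => a (k + i)) k hk1 κ hκ j (by simpa using h2)
    simpa using this
  -- a common exponent
  obtain ⟨p, hp⟩ : ∃ p : ℕ, ∀ j ∈ J, a k ^ p * j ∈ 𝔞 := by
    obtain ⟨n, w, hw⟩ := Submodule.fg_iff_exists_fin_generating_family.1
      (IsNoetherian.noetherian J)
    have hwJ : ∀ i, w i ∈ J := fun i => by
      rw [← hw]; exact Submodule.subset_span (Set.mem_range_self i)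
    choose p hp using fun i => hmain (w i) (hwJ i)
    refine ⟨∑ i, p i, ?_⟩
    intro j hj
    rw [← hw] at hj
    induction hj using Submodule.span_induction with
    | mem x hx =>
      obtain ⟨i, rfl⟩ := hx
      have h1 : p i ≤ ∑ i, p i := Finset.single_le_sum (fun _ _ => Nat.zero_le _) (Finset.mem_univ i)
      obtain ⟨d, hd⟩ := Nat.exists_eq_add_of_le h1
      rw [hd, pow_add, mul_comm (a k ^ p i), mul_assoc]
      exact 𝔞.mul_mem_left _ (hp i)
    | zero => rw [mul_zero]; exact 𝔞.zero_mem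
    | add x y _ _ hx hy =>
      rw [mul_add]; exact 𝔞.add_mem hx hy
    | smul c x _ hx =>
      rw [smul_eq_mul, mul_left_comm]
      exact 𝔞.mul_mem_left _ hx
  obtain ⟨n, g₀, hg1, hg2⟩ := det_trick J B (IsNoetherian.noetherian J) (a k ^ p) hp
  refine ⟨k * (p * n + 1), g₀ * a k, ?_, ?_, ?_⟩
  · exact Nat.mul_pos hk1 (Nat.succ_pos _)
  · rw [← Ideal.Quotient.eq_zero_iff_mem]
    have h1 : Ideal.Quotient.mk I (C g₀) = Ideal.Quotient.mk I (C ((a k ^ p) ^ n)) := by
      rw [Ideal.Quotient.eq, ← C_sub]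
      exact hg1
    have h2 : Ideal.Quotient.mk I (C (a k) * X ^ k) = 1 := by
      have := Ideal.Quotient.eq_zero_iff_mem.2 hγI
      rw [hγ, map_sub, map_one, sub_eq_zero] at this
      exact this.symm
    rw [map_sub, map_one, sub_eq_zero]
    calc (1 : L[X] ⧸ I) = (Ideal.Quotient.mk I (C (a k) * X ^ k)) ^ (p * n + 1) := by
          rw [h2, one_pow]
      _ = Ideal.Quotient.mk I (C ((a k ^ p) ^ n)) * Ideal.Quotient.mk I (C (a k))
            * Ideal.Quotient.mk I (X ^ (k * (p * n + 1))) := by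
          rw [← map_pow, ← map_mul, ← map_mul]
          congr 1
          rw [mul_pow, ← pow_mul, ← C_pow, ← C_mul]
          congr 2
          rw [pow_succ, pow_mul]
      _ = Ideal.Quotient.mk I (C g₀) * Ideal.Quotient.mk I (C (a k))
            * Ideal.Quotient.mk I (X ^ (k * (p * n + 1))) := by rw [h1]
      _ = _ := by rw [← map_mul, ← map_mul, ← C_mul]
  · intro j hj
    rw [mul_right_comm]
    exact B.mul_mem_right _ (hg2 j hj)

end Pool.Agent.Helper61.GU
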