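import Mathlib
import Pool.Agent.Helper91.GU.StF

/-!
# Module S0 of project GU: rows over `K[X]`
-/

set_option autoImplicit false

namespace Pool.Agent.Helper61.GU

universe u

open Polynomial
open Pool.Agent.Helper91.GU

section
variable {n : Type} [Fintype n] [DecidableEq n] {A : Type u} [CommRing A]

theorem EEq_refl (v : n → A) : EEq v v := ⟨1, (Elem n A).one_mem, Matrix.vecMul_one v⟩

theorem EEq_trans {v w x : n → A} (h : EEq v w) (h' : EEq w x) : EEq v x := by
  obtain ⟨e, he, rfl⟩ := h
  obtain ⟨e', he', rfl⟩ := h'
  exact ⟨e * e', (Elem n A).mul_mem he he', by rw [Matrix.vecMul_vecMul]⟩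

theorem EEq_step (v : n → A) {i j : n} (hij : i ≠ j) (c : A) :
    EEq v (Function.update v j (v j + c * v i)) := by
  refine ⟨Matrix.transvection i j c, Submonoid.subset_closure ⟨i, j, c, hij, rfl⟩, ?_⟩
  ext l
  rw [Matrix.transvection, Matrix.vecMul_add, Matrix.vecMul_one, Pi.add_apply]
  have h1 : Matrix.vecMul v (Matrix.single i j c) l = if l = j then v i * c else 0 := by
    rw [Matrix.vecMul, dotProduct, Finset.sum_eq_single i]
    · rw [Matrix.single_apply]
      by_cases h : l = j
      · subst h; simp
      · rw [if_neg (fun hh => h hh.2.symm), if_neg h, mul_zero]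
    · intro b _ hb
      rw [Matrix.single_apply, if_neg (fun hh => hb hh.1.symm), mul_zero]
    · intro h; exact absurd (Finset.mem_univ _) h
  rw [h1]
  by_cases h : l = j
  · subst h; rw [Function.update_self, if_pos rfl]; ring
  · rw [Function.update_of_ne h, if_neg h, add_zero]

theorem EEq_clear (w : n → A) (i : n) (h : ∀ j, w i ∣ w j) :
    EEq w (Pi.single i (w i)) := by
  have key : ∀ s : Finset n, i ∉ s → EEq w (fun j => if j ∈ s then 0 else w j) := by
    intro s
    induction s using Finset.induction_on with
    | empty =>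
      intro _
      have : (fun j => if j ∈ (∅ : Finset n) then 0 else w j) = w := by ext j; simp
      rw [this]; exact EEq_refl w
    | insert j s hj ih =>
      intro hi
      rw [Finset.mem_insert, not_or] at hi
      refine EEq_trans (ih hi.2) ?_
      obtain ⟨c, hc⟩ := h j
      have h1 := EEq_step (fun l => if l ∈ s then 0 else w l) hi.1 (-c)
      have e : Function.update (fun l => if l ∈ s then 0 else w l) j
          ((fun l => if l ∈ s then 0 else w l) j + -c * (fun l => if l ∈ s then 0 else w l) i)
          = fun l => if l ∈ insert j s then 0 else w l := by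
        ext l
        by_cases hl : l = j
        · subst hl
          rw [Function.update_self]
          simp only [hj, hi.2, if_false, Finset.mem_insert, true_or, if_true]
          rw [hc]; ring
        · rw [Function.update_of_ne hl]
          simp [Finset.mem_insert, hl]
      rw [e] at h1
      exact h1
  have h1 := key (Finset.univ.erase i) (by simp)
  have e : (fun j => if j ∈ Finset.univ.erase i then 0 else w j) = Pi.single i (w i) := by
    ext j
    by_cases hj : j = i
    · subst hj; simp
    · simp [hj]
  rw [e] at h1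
  exact h1

theorem EEq_move (i j : n) (hij : i ≠ j) (d : A) :
    EEq (Pi.single i d : n → A) (Pi.single j d) := by
  have h1 := EEq_step (Pi.single i d : n → A) hij 1
  refine EEq_trans h1 ?_
  set w : n → A := Function.update (Pi.single i d) j ((Pi.single i d : n → A) j + 1 * (Pi.single i d : n → A) i)
    with hw
  have h2 := EEq_step w (Ne.symm hij) (-1)
  have e : Function.update w i (w i + -1 * w j) = Pi.single j d := by
    ext l
    by_cases hl : l = i
    · subst hl
      rw [Function.update_self, hw, Function.update_of_ne hij, Function.update_self]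
      simp [hij]
    · rw [Function.update_of_ne hl, hw]
      by_cases hl' : l = j
      · subst hl'
        rw [Function.update_self]
        simp [hl]
      · rw [Function.update_of_ne hl']
        simp [hl, hl']
  rw [e] at h2
  exact h2

theorem EEq_unit (i j : n) (hij : i ≠ j) (d d' : A) (hd : d' * d = 1) :
    EEq (Pi.single i d : n → A) (Pi.single i 1) := by
  have h1 := EEq_step (Pi.single i d : n → A) hij d'
  refine EEq_trans h1 ?_
  set w : n → A := Function.update (Pi.single i d) j ((Pi.single i d : n → A) j + d' * (Pi.single i d : n → A) i)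
    with hw
  have hwj : w j = 1 := by
    rw [hw, Function.update_self]
    simp [Ne.symm hij, hd]
  have hwi : w i = d := by
    rw [hw, Function.update_of_ne hij]; simp
  have hwl : ∀ l, l ≠ i → l ≠ j → w l = 0 := by
    intro l h1 h2
    rw [hw, Function.update_of_ne h2]; simp [h1]
  refine EEq_trans (EEq_step w (Ne.symm hij) (1 - d)) ?_
  set x : n → A := Function.update w i (w i + (1 - d) * w j) with hx
  have hxi : x i = 1 := by
    rw [hx, Function.update_self, hwi, hwj]; ring
  have := EEq_clear x i (fun l => by rw [hxi]; exact one_dvd _)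
  rw [hxi] at this
  exact this

theorem Elem_inv (e : Matrix n n A) (he : e ∈ Elem n A) : ∃ e' : Matrix n n A, e * e' = 1 := by
  induction he using Submonoid.closure_induction with
  | mem x hx =>
    obtain ⟨i, j, c, hij, rfl⟩ := hx
    refine ⟨Matrix.transvection i j (-c), ?_⟩
    rw [Matrix.transvection_mul_transvection_same (h := hij), add_neg_cancel, Matrix.transvection_zero]
  | one => exact ⟨1, mul_one 1⟩
  | mul x y _ _ hx hy =>
    obtain ⟨x', hx'⟩ := hx
    obtain ⟨y', hy'⟩ := hy
    refine ⟨y' * x', ?_⟩
    calc x * y * (y' * x') = x * (y * y') * x' := by simp only [Matrix.mul_assoc]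
      _ = 1 := by rw [hy', Matrix.mul_one, hx']

theorem Um_of_EEq {v w : n → A} (h : EEq v w) (hv : Um v) : Um w := by
  obtain ⟨e, he, rfl⟩ := h
  obtain ⟨e', he'⟩ := Elem_inv e he
  obtain ⟨y, hy⟩ := hv
  refine ⟨Matrix.mulVec e' y, ?_⟩
  rw [Matrix.dotProduct_mulVec, Matrix.vecMul_vecMul, he', Matrix.vecMul_one]
  exact hy

end

theorem hS0 : StS0.{u} := by
  intro K _ n _ _ i₀ ⟨j₀, hj₀⟩ v hv
  classical
  have hne : ∃ m : ℕ, ∃ (w : n → K[X]) (i : n), EEq v w ∧ w i ≠ 0 ∧ (w i).natDegree = m := by
    by_contra hcon
    have hv0 : v = 0 := by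
      ext1 i
      by_contra hi
      exact hcon ⟨_, v, i, EEq_refl v, hi, rfl⟩
    obtain ⟨y, hy⟩ := hv
    rw [hv0, zero_dotProduct] at hy
    exact zero_ne_one hy
  obtain ⟨w, i, hvw, hwi, hdeg⟩ := Nat.find_spec hne
  have hmin : ∀ (w' : n → K[X]) (i' : n), EEq v w' → w' i' ≠ 0 →
      (w i).natDegree ≤ (w' i').natDegree := by
    intro w' i' h1 h2
    rw [hdeg]
    exact Nat.find_min' hne ⟨w', i', h1, h2, rfl⟩
  have hdvd : ∀ j, w i ∣ w j := by
    intro j
    by_cases hji : j = i
    · rw [hji]
    · rw [← EuclideanDomain.mod_eq_zero]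
      by_contra hmod
      have h1 := EEq_step w (Ne.symm hji) (-(w j / w i))
      set w' := Function.update w j (w j + -(w j / w i) * w i) with hw'
      have h2 : w' j = w j % w i := by
        rw [hw', Function.update_self]
        have := EuclideanDomain.div_add_mod (w j) (w i)
        linear_combination (-1 : K[X]) * this
      have h3 := hmin w' j (EEq_trans hvw h1) (by rw [h2]; exact hmod)
      rw [h2] at h3
      have h4 : (w j % w i).natDegree < (w i).natDegree :=
        natDegree_lt_natDegree hmod (EuclideanDomain.mod_lt (w j) hwi)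
      omega
  have h5 : EEq v (Pi.single i (w i)) := EEq_trans hvw (EEq_clear w i hdvd)
  have h6 : EEq v (Pi.single i₀ (w i)) := by
    by_cases h : i = i₀
    · rw [← h]; exact h5
    · exact EEq_trans h5 (EEq_move i i₀ h (w i))
  obtain ⟨y, hy⟩ := Um_of_EEq h6 hv
  rw [single_dotProduct] at hy
  exact EEq_trans h6 (EEq_unit i₀ j₀ (Ne.symm hj₀) (w i) (y i₀) (by rw [mul_comm]; exact hy))

end Pool.Agent.Helper61.GU
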