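import Pool.Agent.Helper96.GU.St

set_option autoImplicit false

namespace Pool.Agent.Helper61.GU

open Pool.Agent.Helper96.UT hiding StTOP TopV TopE tht Bd VC EC
open Pool.Agent.Helper96.GU

/-- A group generated by two elements with a homomorphism to the rationals which does not vanish on
the kernel of a surjection to a free group of rank `p`. -/
private theorem rank_le_one {G : Type} [Group G] (a₁ a₂ : G)
    (hG : ∀ x : G, x ∈ Subgroup.closure ({a₁, a₂} : Set G)) (p : ℕ) (f : G →* FreeGroup (Fin p))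
    (hf : Function.Surjective f) (X₀ : G → ℚ) (hX : ∀ g h, X₀ (g * h) = X₀ g + X₀ h) (s : G)
    (h0 : X₀ s ≠ 0) (hs : f s = 1) : p ≤ 1 := by
  by_contra hp
  push Not at hp
  let i0 : Fin p := ⟨0, by omega⟩
  let i1 : Fin p := ⟨1, by omega⟩
  have hi : i0 ≠ i1 := by
    intro h
    have := congrArg Fin.val h
    simp [i0, i1] at this
  let ξ : Fin p → (FreeGroup (Fin p) →* Multiplicative ℚ) := fun i =>
    FreeGroup.lift (fun j => Multiplicative.ofAdd (if j = i then (1 : ℚ) else 0))
  have hξ : ∀ i j, Multiplicative.toAdd (ξ i (FreeGroup.of j)) = if j = i then (1 : ℚ) else 0 := by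
    intro i j
    simp [ξ]
  let X : Fin 3 → G → ℚ := ![X₀, fun h => Multiplicative.toAdd (ξ i0 (f h)),
    fun h => Multiplicative.toAdd (ξ i1 (f h))]
  have hXa : ∀ (j : Fin 3) (g h : G), X j (g * h) = X j g + X j h := by
    intro j g h
    fin_cases j
    · exact hX g h
    · change Multiplicative.toAdd (ξ i0 (f (g * h))) = _
      rw [map_mul, map_mul]
      rfl
    · change Multiplicative.toAdd (ξ i1 (f (g * h))) = _
      rw [map_mul, map_mul]
      rfl
  let M : Matrix (Fin 2) (Fin 3) ℚ := Matrix.of fun i j => X j (![a₁, a₂] i)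
  have hker : (Matrix.mulVecLin M).ker ≠ ⊥ := by
    apply LinearMap.ker_ne_bot_of_finrank_lt
    simp
  obtain ⟨c, hc, hc0⟩ := Submodule.exists_mem_ne_zero_of_ne_bot hker
  rw [LinearMap.mem_ker, Matrix.mulVecLin_apply] at hc
  let Y : G → ℚ := fun h => ∑ j, X j h * c j
  have hYa : ∀ g h, Y (g * h) = Y g + Y h := by
    intro g h
    simp only [Y]
    rw [← Finset.sum_add_distrib]
    refine Finset.sum_congr rfl fun j _ => ?_
    rw [hXa]
    ring
  have hY1 : Y a₁ = 0 := congrFun hc 0
  have hY2 : Y a₂ = 0 := congrFun hc 1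
  have hYone : Y 1 = 0 := by
    have := hYa 1 1
    rw [mul_one] at this
    linarith
  have hY : ∀ x, Y x = 0 := by
    intro x
    have hx := hG x
    induction hx using Subgroup.closure_induction with
    | mem x hx =>
      rcases hx with rfl | rfl
      · exact hY1
      · exact hY2
    | one => exact hYone
    | mul x y _ _ h1 h2 => rw [hYa, h1, h2, add_zero]
    | inv x _ h1 =>
      have h2 := hYa x x⁻¹
      rw [mul_inv_cancel, hYone, h1, zero_add] at h2
      exact h2.symm
  have hYe : ∀ x, X₀ x * c 0 + Multiplicative.toAdd (ξ i0 (f x)) * c 1 +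
      Multiplicative.toAdd (ξ i1 (f x)) * c 2 = 0 := by
    intro x
    have := hY x
    simp only [Y, Fin.sum_univ_three] at this
    exact this
  have c0 : c 0 = 0 := by
    have h := hYe s
    rw [hs, map_one (ξ i0), map_one (ξ i1)] at h
    simp only [toAdd_one, zero_mul, add_zero] at h
    exact (mul_eq_zero.1 h).resolve_left h0
  obtain ⟨g0, hg0⟩ := hf (FreeGroup.of i0)
  obtain ⟨g1, hg1⟩ := hf (FreeGroup.of i1)
  have c1 : c 1 = 0 := by
    have h := hYe g0
    rw [hg0, hξ, hξ, c0, if_pos rfl, if_neg hi] at h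
    simpa using h
  have c2 : c 2 = 0 := by
    have h := hYe g1
    rw [hg1, hξ, hξ, c0, if_pos rfl, if_neg hi.symm] at h
    simpa using h
  apply hc0
  funext j
  fin_cases j
  · exact c0
  · exact c1
  · exact c2

/-- A free group of rank at most one is cyclic. -/
private theorem cyc_of_le_one (p : ℕ) (hp : p ≤ 1) :
    ∃ t : FreeGroup (Fin p), ∀ x : FreeGroup (Fin p), ∃ m : ℤ, x = t ^ m := by
  rcases Nat.lt_or_ge p 1 with h | h
  · have hp0 : p = 0 := by omega
    subst hp0
    exact ⟨1, fun x => ⟨0, Subsingleton.elim _ _⟩⟩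
  · have hp1 : p = 1 := by omega
    subst hp1
    refine ⟨FreeGroup.of 0, fun x => ?_⟩
    induction x using FreeGroup.induction_on with
    | C1 => exact ⟨0, by simp⟩
    | of i => exact ⟨1, by rw [zpow_one, Subsingleton.elim i 0]⟩
    | inv_of i _ => exact ⟨-1, by rw [zpow_neg, zpow_one, Subsingleton.elim i 0]⟩
    | mul x y hx hy =>
      obtain ⟨a, ha⟩ := hx
      obtain ⟨b, hb⟩ := hy
      exact ⟨a + b, by rw [ha, hb, zpow_add]⟩

/-- The boundary of the cell runs once over the free edge. -/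
private theorem chi_s {α : Type} (Z : Cyc α) {Θ : Type} [MulAction (FreeGroup α) Θ] (o : Θ)
    (ho : act o Z.s = o) (k : ℤ) (e₀ : Θ × α) (he₀ : e₀ = ed (act o (pre Z.c k)) (Z.c k))
    (hfre : ∀ k' : ℤ, ed (act o (pre Z.c k')) (Z.c k') = e₀ → (Z.n : ℤ) ∣ k' - k)
    (φ : Θ × α → ℚ) (hφ1 : φ e₀ = 1) (hφ0 : ∀ e, e ≠ e₀ → φ e = 0) :
    Sa φ o Z.s ≠ 0 := by
  have hn : (0 : ℤ) < Z.n := by exact_mod_cast Z.pos
  have h1 := Int.emod_nonneg k hn.ne'
  have h2 := Int.emod_lt_of_pos k hn
  obtain ⟨t₀, ht₀⟩ := Int.eq_ofNat_of_zero_le h1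
  have ht₀n : t₀ < Z.n := by
    have : (t₀ : ℤ) < Z.n := by
      rw [← ht₀]
      exact h2
    exact_mod_cast this
  have hk : (t₀ : ℤ) + k / Z.n * Z.n = k := by
    have h3 := Int.emod_add_mul_ediv k (Z.n : ℤ)
    rw [ht₀] at h3
    linarith [mul_comm (Z.n : ℤ) (k / Z.n)]
  have hc : Z.c k = Z.c t₀ := by
    rw [← Z.per_mul t₀ (k / Z.n), hk]
  have hpre : act o (pre Z.c k) = act o (pre Z.c t₀) := by
    rw [← act_pre_per ho t₀ (k / Z.n), hk]
  have hsum := Sm_seg Z.c φ o 0 Z.n
  rw [pre_zero, act_one] at hsum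
  rw [← mk_seg_s, Sa_mk, hsum, Finset.sum_eq_single t₀]
  · rw [zero_add, ← hpre, ← hc, ← he₀, hφ1]
    split <;> norm_num
  · intro t ht hne
    have hz : φ (ed (act o (pre Z.c (0 + t))) (Z.c (0 + t))) = 0 := by
      apply hφ0
      intro heq
      have hd := hfre _ heq
      apply hne
      have h5 : (t : ℤ) < Z.n := by exact_mod_cast Finset.mem_range.1 ht
      have h6 : ((t : ℤ)) % Z.n = k % Z.n := by
        rw [Int.emod_eq_emod_iff_emod_sub_eq_zero]
        rw [zero_add] at hd
        exact Int.emod_eq_zero_of_dvd hd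
      rw [Int.emod_eq_of_lt (by positivity) h5, ht₀] at h6
      exact_mod_cast h6
    rw [hz]
    simp
  · intro h
    exact absurd (Finset.mem_range.2 ht₀n) h

theorem tCYK : StFRE → StRHO → Pool.Agent.Helper96.UT.StFGF → StCYK := by
  intro hFRE hRHO hFGF α Z L h₁ h₂ hL hsL Ω _ v hv k hk
  classical
  let o : FreeGroup α ⧸ L := ((1 : FreeGroup α) : FreeGroup α ⧸ L)
  have hoo : ∀ g h : FreeGroup α, act o g = act o h ↔ g * h⁻¹ ∈ L := act_coset_eq_EXZ L
  have ho : ∀ g : FreeGroup α, act o g = o ↔ g ∈ L := by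
    intro g
    have h := hoo g 1
    rw [act_one, inv_one, mul_one] at h
    exact h
  have hos : act o Z.s = o := (ho _).2 hsL
  have hSg : Sg Z {o} o k := by
    intro u' hu' k' hk'
    rw [Finset.mem_singleton] at hu'
    subst hu'
    refine ⟨hk k' ?_, rfl⟩
    have h1 := hv _ ((hoo _ _).1 hk')
    rw [act_mul] at h1
    have h2 := act_inv_eq h1
    rw [inv_inv] at h2
    exact h2.symm
  have hCpx : Cpx Z (Set.univ : Set ((FreeGroup α ⧸ L) × α)) {o} :=
    { fix := by
        intro u hu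
        rw [Finset.mem_singleton] at hu
        rw [hu, hos]
      sub := fun _ _ => Set.subset_univ _ }
  obtain ⟨ρ, r1, -, -, r4, -, r6⟩ := hRHO α Z (FreeGroup α ⧸ L) Set.univ {o} hCpx o
    (Finset.mem_singleton_self o) k hSg
  -- the homomorphism
  let R : L →* FreeGroup α := MonoidHom.mk' (fun h => ρ o (h : FreeGroup α)) (by
    intro g h
    change ρ o ((g : FreeGroup α) * h) = _
    rw [r1, (ho _).2 g.2])
  have hR : ∀ h : L, R h = ρ o (h : FreeGroup α) := fun _ => rfl
  have hNs : ∀ h : L, (h : FreeGroup α) * (R h)⁻¹ ∈ Ns L Z := by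
    intro h
    obtain ⟨w, hw⟩ := rep_EXZ (h : FreeGroup α)
    have h6 := r6 o w (InE_univ _ _)
    rw [hw] at h6
    have hle : Nc Z (Set.univ : Set ((FreeGroup α ⧸ L) × α)) {o} o ≤ Ns L Z := by
      apply Subgroup.closure_mono
      rintro x ⟨p, _, hp, rfl⟩
      rw [Finset.mem_singleton] at hp
      exact ⟨FreeGroup.mk p, (ho _).1 hp, rfl⟩
    exact hle h6
  have hstar : ∀ h : L, R h = 1 → (h : FreeGroup α) ∈ Ns L Z := by
    intro h h1
    have := hNs h
    rwa [h1, inv_one, mul_one] at this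
  have hm₁ : h₁ ∈ L := by
    rw [hL]
    exact Subgroup.subset_closure (by simp)
  have hm₂ : h₂ ∈ L := by
    rw [hL]
    exact Subgroup.subset_closure (by simp)
  -- the image is free
  have hLfg : Group.FG L := by
    rw [Group.fg_iff_subgroup_fg]
    exact ⟨{h₁, h₂}, by rw [hL]; simp⟩
  have hRfg : R.range.FG := by
    rw [← Group.fg_iff_subgroup_fg]
    exact Group.fg_range R
  obtain ⟨p, ⟨e⟩⟩ := hFGF α R.range hRfg
  let f : L →* FreeGroup (Fin p) := e.toMonoidHom.comp R.rangeRestrict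
  have hf : Function.Surjective f := e.surjective.comp R.rangeRestrict_surjective
  have hf1 : ∀ h : L, f h = 1 → R h = 1 := by
    intro h h1
    have h2 : R.rangeRestrict h = 1 := by
      apply e.injective
      rw [map_one]
      exact h1
    have h3 := congrArg (fun x : R.range => (x : FreeGroup α)) h2
    simpa using h3
  -- the rank
  set e₀ := ed (act o (pre Z.c k)) (Z.c k) with he₀
  let φ : (FreeGroup α ⧸ L) × α → ℚ := fun x => if x = e₀ then 1 else 0
  have hp : p ≤ 1 := by
    refine rank_le_one (⟨h₁, hm₁⟩ : L) ⟨h₂, hm₂⟩ ?_ p f hf (fun h : L => Sa φ o (h : FreeGroup α))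
      ?_ ⟨Z.s, hsL⟩ ?_ ?_
    · have key : ∀ g ∈ Subgroup.closure ({h₁, h₂} : Set (FreeGroup α)), ∀ hg : g ∈ L,
          (⟨g, hg⟩ : L) ∈ Subgroup.closure ({(⟨h₁, hm₁⟩ : L), ⟨h₂, hm₂⟩} : Set L) := by
        intro g hg
        induction hg using Subgroup.closure_induction with
        | mem x hx =>
          intro hxL
          apply Subgroup.subset_closure
          rcases hx with rfl | rfl
          · exact Or.inl rfl
          · exact Or.inr rfl
        | one =>
          intro _
          exact Subgroup.one_mem _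
        | mul x y hx hy h1 h2 =>
          intro _
          exact Subgroup.mul_mem _ (h1 (by rw [hL]; exact hx)) (h2 (by rw [hL]; exact hy))
        | inv x hx h1 =>
          intro _
          exact Subgroup.inv_mem _ (h1 (by rw [hL]; exact hx))
      intro x
      exact key x (by rw [← hL]; exact x.2) x.2
    · intro g h
      change Sa φ o ((g : FreeGroup α) * h) = _
      rw [Sa_mul, (ho _).2 g.2]
    · exact chi_s Z o hos k e₀ he₀
        (fun k' hk' => (hFRE α Z (FreeGroup α ⧸ L) {o} o k hSg o (Finset.mem_singleton_self o) k'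
          hk').1) φ (if_pos rfl) (fun e he => if_neg he)
    · have h1 : R ⟨Z.s, hsL⟩ = 1 := by
        rw [hR]
        exact r4
      change e (R.rangeRestrict ⟨Z.s, hsL⟩) = 1
      have h2 : R.rangeRestrict ⟨Z.s, hsL⟩ = 1 := Subtype.ext h1
      rw [h2, map_one]
  obtain ⟨t, ht⟩ := cyc_of_le_one p hp
  obtain ⟨a, ha⟩ := hf t
  refine ⟨a, a.2, fun h hh => ?_⟩
  obtain ⟨m, hm⟩ := ht (f ⟨h, hh⟩)
  refine ⟨m, ?_⟩
  have h5 : f (⟨h, hh⟩ * (a ^ m)⁻¹) = 1 := by
    rw [map_mul, map_inv, map_zpow, ha, hm, mul_inv_cancel]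
  have h6 := hstar _ (hf1 _ h5)
  simpa using h6

end Pool.Agent.Helper61.GU
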