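import Pool.Agent.Helper96.GU.St

set_option autoImplicit false

namespace Pool.Agent.Helper61.GU

open Pool.Agent.Helper96.UT hiding StTOP TopV TopE tht Bd VC EC
open Pool.Agent.Helper96.GU

private theorem InE_inter_TWF {α Ω : Type} [MulAction (FreeGroup α) Ω] {E E' : Set (Ω × α)} {v : Ω}
    {w : List (α × Bool)} (h : InE E v w) (h' : InE E' v w) : InE (E ∩ E') v w := by
  induction w generalizing v with
  | nil => trivial
  | cons x w ih => exact ⟨⟨h.1, h'.1⟩, ih h.2 h'.2⟩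

private theorem ed_mem_TWF {α Ω : Type} [MulAction (FreeGroup α) Ω] {B : Set Ω}
    (hB : ∀ x ∈ B, ∀ g : FreeGroup α, act x g ∈ B) {v : Ω} (hv : v ∈ B) (x : α × Bool) :
    (ed v x).1 ∈ B := by
  unfold ed
  split
  · exact hv
  · exact hB v hv _

private theorem InE_inv_TWF {α Ω : Type} [MulAction (FreeGroup α) Ω] {B : Set Ω}
    (hB : ∀ x ∈ B, ∀ g : FreeGroup α, act x g ∈ B) {v : Ω} (hv : v ∈ B) (w : List (α × Bool)) :
    InE {e : Ω × α | e.1 ∈ B} v w := by
  induction w generalizing v with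
  | nil => trivial
  | cons x w ih => exact ⟨ed_mem_TWF hB hv x, ih (hB v hv _)⟩

theorem tTWF : StCOL → StTWF := by
  intro hCOL α Z L Ω Θ _ _ o v B D E C ho hsL hB hvo hcpx hCD hR hH q hq1 hq2 hq3 hqL
  classical
  have hos : act o Z.s = o := (ho _).2 hsL
  -- projections
  have hfst : ∀ (x : Ω × Θ) (g : FreeGroup α), (act x g).1 = act x.1 g := fun _ _ => rfl
  have hsnd : ∀ (x : Ω × Θ) (g : FreeGroup α), (act x g).2 = act x.2 g := fun _ _ => rfl
  let EZ : Set ((Ω × Θ) × α) := {e | e.1 ∈ B} ∩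
    ({e | (e.1.2, e.2) ∈ CE Z o} ∩ {e | (e.1.1, e.2) ∈ E})
  let CZ : Finset (Ω × Θ) := (C.filter (fun u => (u, o) ∈ B)).image (fun u => (u, o))
  have hCZ : ∀ x, x ∈ CZ → ∃ u ∈ C, (u, o) ∈ B ∧ x = (u, o) := by
    intro x hx
    obtain ⟨u, hu, rfl⟩ := Finset.mem_image.1 hx
    rw [Finset.mem_filter] at hu
    exact ⟨u, hu.1, hu.2, rfl⟩
  have hcpxZ : Cpx Z EZ CZ :=
    { fix := by
        intro x hx
        obtain ⟨u, hu, -, rfl⟩ := hCZ x hx
        rw [act_prod]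
        exact Prod.ext (hcpx.fix u hu) hos
      sub := by
        intro x hx
        obtain ⟨u, hu, huB, rfl⟩ := hCZ x hx
        rintro e ⟨i, rfl⟩
        refine ⟨ed_mem_TWF hB (hB _ huB _) _, ?_, ?_⟩
        · have h1 := ed_comp (Prod.snd : Ω × Θ → Θ) hsnd (act (u, o) (pre Z.c i)) (Z.c i)
          change ((ed (act (u, o) (pre Z.c i)) (Z.c i)).1.2,
            (ed (act (u, o) (pre Z.c i)) (Z.c i)).2) ∈ CE Z o
          rw [h1]
          exact ⟨i, rfl⟩
        · have h1 := ed_comp (Prod.fst : Ω × Θ → Ω) hfst (act (u, o) (pre Z.c i)) (Z.c i)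
          change ((ed (act (u, o) (pre Z.c i)) (Z.c i)).1.1,
            (ed (act (u, o) (pre Z.c i)) (Z.c i)).2) ∈ E
          rw [h1]
          exact hcpx.sub u hu ⟨i, rfl⟩ }
  have hHZ : Hh Z EZ CZ (v, o) ∅ := by
    intro ψ hψ _ x p hp1 hp2
    obtain ⟨φ, g, hφ1, hφ2⟩ := hR ψ (fun _ => 0)
    -- the sum along a path
    have key : ∀ (y : Ω × Θ) (w : List (α × Bool)), InE EZ y w →
        Sm ψ y w = Sm φ y.1 w + (g (act y (FreeGroup.mk w)) - g y) := by
      intro y w hw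
      have h1 : Sm ψ y w = Sm (fun e : (Ω × Θ) × α => φ (e.1.1, e.2) +
          (g (act e.1 (lt (e.2, true))) - g e.1)) y w :=
        Sm_congr_on (fun e he => hφ1 e he.1 he.2.1) hw
      rw [h1, Sm_add (fun e : (Ω × Θ) × α => φ (e.1.1, e.2))
        (fun e : (Ω × Θ) × α => g (act e.1 (lt (e.2, true))) - g e.1), Sm_cob]
      rw [Sm_comp (Prod.fst : Ω × Θ → Ω) hfst φ y w]
    have hcell : ∀ u ∈ C, Sa φ u Z.s = 0 := by
      intro u hu
      by_cases huB : (u, o) ∈ B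
      · have hmem : (u, o) ∈ CZ := Finset.mem_image.2 ⟨u, Finset.mem_filter.2 ⟨hu, huB⟩, rfl⟩
        have h1 := hψ _ hmem
        have h2 := InE_mono (hcpxZ.sub _ hmem) (InE_cell Z (u, o) 0 Z.n)
        rw [pre_zero, act_one] at h2
        have h3 := key _ _ h2
        rw [mk_seg_s, hcpxZ.fix _ hmem, sub_self, add_zero] at h3
        rw [← mk_seg_s, Sa_mk] at h1 ⊢
        rw [← h3]
        exact h1
      · exact hφ2 u ((hCD u hu).resolve_left huB)
    have h4 : InE E x.1 p := by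
      rw [← InE_comp (Prod.fst : Ω × Θ → Ω) hfst E x p]
      exact InE_mono (fun e he => he.2.2) hp1
    have h5 : act x.1 (FreeGroup.mk p) = x.1 := congrArg Prod.fst hp2
    have h6 := hH φ hcell (fun h hh => absurd hh (Set.notMem_empty h)) x.1 p h4 h5
    rw [key x p hp1, h6, hp2, sub_self, add_zero]
  have hInE : InE EZ (v, o) q := by
    refine InE_inter_TWF (InE_inv_TWF hB hvo q) (InE_inter_TWF ?_ ?_)
    · exact (InE_comp (Prod.snd : Ω × Θ → Θ) hsnd (CE Z o) (v, o) q).2 hq1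
    · exact (InE_comp (Prod.fst : Ω × Θ → Ω) hfst E (v, o) q).2 hq2
  have hcl : act (v, o) (FreeGroup.mk q) = (v, o) := by
    rw [act_prod]
    exact Prod.ext hq3 ((ho _).2 hqL)
  have hN := hCOL α Z (Ω × Θ) EZ CZ (v, o) hcpxZ hHZ (v, o) q hInE hcl
  have hle : Nc Z EZ CZ (v, o) ≤ Ns L Z := by
    apply Subgroup.closure_mono
    rintro x ⟨p, _, hp, rfl⟩
    obtain ⟨u, -, -, hu⟩ := hCZ _ hp
    exact ⟨FreeGroup.mk p, (ho _).1 (congrArg Prod.snd hu), rfl⟩
  exact hle hN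

end Pool.Agent.Helper61.GU
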